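import Pool.Agent.H7.KQ.Stmts

/-!
# Row EXT of the board `kq`
-/

set_option autoImplicit false

open Finset

namespace Pool.KQ

open Pool.Agent.H23.KT Pool.Agent.H46.KW

theorem ext_mem_non {V : Type} (G : SimpleGraph V) {X : Finset V} {u v : V} :
    v ∈ non G X u ↔ v ∈ X ∧ ¬ G.Adj u v := by
  classical
  unfold non
  rw [mem_filter]

theorem ext_mem_un {V : Type} [DecidableEq V] {b : ℕ} {P : Fin b → Finset V} {v : V} :
    v ∈ un P ↔ ∃ i, v ∈ P i := by
  unfold un
  simp

/-- A clique with `p + 1` vertices misses two parts. -/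
theorem ext_parts {V : Type} [DecidableEq V] (G : SimpleGraph V) (p : ℕ)
    (P : Fin (p + 3) → Finset V) (hP : Par G P) {R : Finset V} (hR : R ∈ clq G (un P) (p + 1)) :
    ∃ k l, k ≠ l ∧ (∀ x ∈ R, ∃ i, i ≠ k ∧ i ≠ l ∧ x ∈ P i) := by
  classical
  rw [mem_clq] at hR
  obtain ⟨hR1, hR2, hR3⟩ := hR
  have hch : ∀ x ∈ R, ∃ i, x ∈ P i := fun x hx => ext_mem_un.1 (hR1 hx)
  choose! φ hφ using hch
  have hinj : Set.InjOn φ (R : Set V) := by
    intro x hx y hy hxy
    by_contra hne
    have h1 := hR3 hx hy hne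
    refine hP.ind (φ x) x (hφ x hx) y ?_ h1
    rw [hxy]
    exact hφ y hy
  have hcard : (R.image φ).card = p + 1 := by
    rw [card_image_of_injOn hinj, hR2]
  have hc : ((R.image φ)ᶜ).card = 2 := by
    rw [card_compl, hcard, Fintype.card_fin]
    omega
  obtain ⟨k, l, hkl, hkl2⟩ := card_eq_two.1 hc
  refine ⟨k, l, hkl, fun x hx => ⟨φ x, ?_, ?_, hφ x hx⟩⟩
  · intro h
    have : k ∈ (R.image φ)ᶜ := by rw [hkl2]; simp
    rw [mem_compl] at this
    exact this (mem_image.2 ⟨x, hx, h⟩)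
  · intro h
    have : l ∈ (R.image φ)ᶜ := by rw [hkl2]; simp
    rw [mem_compl] at this
    exact this (mem_image.2 ⟨x, hx, h⟩)

theorem ext_num (p : ℕ) : ((p : ℝ) + 2) * e1 p ≤ 1 / 100 := by
  unfold e1
  have hp : (0 : ℝ) ≤ p := Nat.cast_nonneg p
  rw [mul_one_div, div_le_div_iff₀ (by positivity) (by norm_num)]
  nlinarith [mul_nonneg hp hp, mul_nonneg (mul_nonneg hp hp) hp]

/-- Common neighbours in a missed part. -/
theorem ext_cn {V : Type} [DecidableEq V] (G : SimpleGraph V) (p a : ℕ) (e : ℝ)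
    (P : Fin (p + 3) → Finset V) (he : e ≤ e1 p) (hlo : ∀ i, (1 - e) * a ≤ ((P i).card : ℝ))
    (hmis : ∀ i, ∀ u ∈ P i, ∀ k, k ≠ i → ((non G (P k) u).card : ℝ) ≤ e1 p * a)
    {R : Finset V} (hRc : R.card = p + 1) (k : Fin (p + 3))
    (hk : ∀ x ∈ R, ∃ i, i ≠ k ∧ x ∈ P i) :
    99 / 100 * (a : ℝ) ≤ ((cn G (P k) R).card : ℝ) := by
  classical
  have h1 : P k ⊆ cn G (P k) R ∪ R.biUnion (fun s => non G (P k) s) := by
    intro v hv
    by_cases h : ∀ s ∈ R, G.Adj s v
    · exact mem_union_left _ (mem_cn.2 ⟨hv, h⟩)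
    · push Not at h
      obtain ⟨s, hs, hsv⟩ := h
      exact mem_union_right _ (mem_biUnion.2 ⟨s, hs, (ext_mem_non G).2 ⟨hv, hsv⟩⟩)
  have h2 : (P k).card ≤ (cn G (P k) R).card + ∑ s ∈ R, (non G (P k) s).card :=
    (card_le_card h1).trans ((card_union_le _ _).trans (Nat.add_le_add_left card_biUnion_le _))
  have h3 : ((P k).card : ℝ) ≤ (cn G (P k) R).card + ∑ s ∈ R, ((non G (P k) s).card : ℝ) := by
    exact_mod_cast h2
  have h4 : ∑ s ∈ R, ((non G (P k) s).card : ℝ) ≤ ((p : ℝ) + 1) * (e1 p * a) := by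
    have : ∑ s ∈ R, ((non G (P k) s).card : ℝ) ≤ ∑ s ∈ R, e1 p * a := by
      refine sum_le_sum fun s hs => ?_
      obtain ⟨i, hik, hsi⟩ := hk s hs
      exact hmis i s hsi k hik.symm
    rw [sum_const, hRc, nsmul_eq_mul] at this
    push_cast at this
    exact this
  have h5 := hlo k
  have h6 := ext_num p
  have ha : (0 : ℝ) ≤ a := Nat.cast_nonneg a
  have h7 : ((p : ℝ) + 2) * e1 p * a ≤ 1 / 100 * a := mul_le_mul_of_nonneg_right h6 ha
  have h8 : e * a ≤ e1 p * a := mul_le_mul_of_nonneg_right he ha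
  linarith

/-- Extensions of a clique with `p + 1` vertices. -/
theorem ext_one {V : Type} [DecidableEq V] (G : SimpleGraph V) (p a : ℕ) (e C : ℝ)
    (P : Fin (p + 3) → Finset V) (hP : Par G P) (he : e ≤ e1 p)
    (hlo : ∀ i, (1 - e) * a ≤ ((P i).card : ℝ))
    (hmis : ∀ i, ∀ u ∈ P i, ∀ k, k ≠ i → ((non G (P k) u).card : ℝ) ≤ e1 p * a)
    (htot : (tot G P : ℝ) ≤ C * a) (haC : 3 * C ≤ a) {R : Finset V}
    (hR : R ∈ clq G (un P) (p + 1)) :
    (a : ℝ) ^ 2 / 2 ≤ (((clq G (un P) (p + 3)).filter (fun K => R ⊆ K)).card : ℝ) := by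
  classical
  obtain ⟨k, l, hkl, hpar⟩ := ext_parts G p P hP hR
  have hR' := hR
  rw [mem_clq] at hR'
  obtain ⟨hR1, hR2, hR3⟩ := hR'
  set A := cn G (P k) R with hA
  set B := cn G (P l) R with hB
  have hAc : 99 / 100 * (a : ℝ) ≤ (A.card : ℝ) :=
    ext_cn G p a e P he hlo hmis hR2 k fun x hx => by
      obtain ⟨i, h1, h2, h3⟩ := hpar x hx
      exact ⟨i, h1, h3⟩
  have hBc : 99 / 100 * (a : ℝ) ≤ (B.card : ℝ) :=
    ext_cn G p a e P he hlo hmis hR2 l fun x hx => by
      obtain ⟨i, h1, h2, h3⟩ := hpar x hx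
      exact ⟨i, h2, h3⟩
  have hRk : ∀ x ∈ R, x ∉ P k := by
    intro x hx hxk
    obtain ⟨i, h1, h2, h3⟩ := hpar x hx
    exact disjoint_left.1 (hP.dis i k h1) h3 hxk
  have hRl : ∀ x ∈ R, x ∉ P l := by
    intro x hx hxl
    obtain ⟨i, h1, h2, h3⟩ := hpar x hx
    exact disjoint_left.1 (hP.dis i l h2) h3 hxl
  set D := (A ×ˢ B).filter (fun q => G.Adj q.1 q.2) with hD
  have hDc : A.card * B.card = D.card + ((A ×ˢ B).filter (fun q => ¬ G.Adj q.1 q.2)).card := by
    rw [← card_product, hD, card_filter_add_card_filter_not]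
  have hNc : ((A ×ˢ B).filter (fun q => ¬ G.Adj q.1 q.2)).card ≤ tot G P := by
    have h1 : ((A ×ˢ B).filter (fun q => ¬ G.Adj q.1 q.2)).card =
        ∑ u ∈ A, (B.filter (fun v => ¬ G.Adj u v)).card := by
      rw [card_filter, sum_product]
      refine sum_congr rfl fun u _ => ?_
      rw [card_filter]
    rw [h1]
    calc ∑ u ∈ A, (B.filter (fun v => ¬ G.Adj u v)).card
        ≤ ∑ u ∈ A, (non G (P l) u).card := by
          refine sum_le_sum fun u _ => card_le_card fun v hv => ?_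
          rw [mem_filter] at hv
          exact (ext_mem_non G).2 ⟨(mem_cn.1 hv.1).1, hv.2⟩
      _ ≤ ∑ u ∈ P k, (non G (P l) u).card :=
          sum_le_sum_of_subset (cn_subset _ _)
      _ ≤ ∑ m ∈ univ.erase k, ∑ u ∈ P k, (non G (P m) u).card :=
          single_le_sum (f := fun m => ∑ u ∈ P k, (non G (P m) u).card)
            (fun _ _ => Nat.zero_le _) (mem_erase.2 ⟨hkl.symm, mem_univ l⟩)
      _ ≤ tot G P := by
          unfold tot
          exact single_le_sum (f := fun i => ∑ m ∈ univ.erase i, ∑ u ∈ P i, (non G (P m) u).card)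
            (fun _ _ => Nat.zero_le _) (mem_univ k)
  have hDle : D.card ≤ ((clq G (un P) (p + 3)).filter (fun K => R ⊆ K)).card := by
    refine card_le_card_of_injOn (fun q => insert q.1 (insert q.2 R)) ?_ ?_
    · rintro ⟨x, y⟩ hxy
      have hxy' : (x, y) ∈ D := hxy
      rw [hD, mem_filter, mem_product] at hxy'
      obtain ⟨⟨hx, hy⟩, hadj⟩ := hxy'
      simp only at hx hy hadj
      rw [hA, mem_cn] at hx
      rw [hB, mem_cn] at hy
      rw [mem_coe, mem_filter]
      refine ⟨?_, (subset_insert _ _).trans (subset_insert _ _)⟩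
      have h1 : insert y R ∈ clq G (un P) (p + 1 + 1) :=
        clq_insert hR (mem_cn.2 ⟨ext_mem_un.2 ⟨l, hy.1⟩, hy.2⟩)
      refine clq_insert h1 (mem_cn.2 ⟨ext_mem_un.2 ⟨k, hx.1⟩, fun s hs => ?_⟩)
      rcases mem_insert.1 hs with rfl | hs
      · exact hadj.symm
      · exact hx.2 s hs
    · rintro ⟨x, y⟩ hxy ⟨x', y'⟩ hxy' heq
      have h1 : (x, y) ∈ D := hxy
      have h2 : (x', y') ∈ D := hxy'
      rw [hD, mem_filter, mem_product] at h1 h2
      obtain ⟨⟨hx, hy⟩, -⟩ := h1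
      obtain ⟨⟨hx', hy'⟩, -⟩ := h2
      simp only at hx hy hx' hy' heq
      have hxk := (mem_cn.1 hx).1
      have hxk' := (mem_cn.1 hx').1
      have hyl := (mem_cn.1 hy).1
      have hyl' := (mem_cn.1 hy').1
      have e1' : x = x' := by
        have : x ∈ insert x' (insert y' R) := by rw [← heq]; exact mem_insert_self _ _
        rcases mem_insert.1 this with h | h
        · exact h
        · rcases mem_insert.1 h with h | h
          · exfalso
            rw [h] at hxk
            exact disjoint_left.1 (hP.dis k l hkl) hxk hyl'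
          · exact absurd hxk (hRk x h)
      have e2' : y = y' := by
        have : y ∈ insert x' (insert y' R) := by
          rw [← heq]; exact mem_insert_of_mem (mem_insert_self _ _)
        rcases mem_insert.1 this with h | h
        · exfalso
          rw [h] at hyl
          exact disjoint_left.1 (hP.dis k l hkl) hxk' hyl
        · rcases mem_insert.1 h with h | h
          · exact h
          · exact absurd hyl (hRl y h)
      rw [e1', e2']
  have ha : (0 : ℝ) ≤ a := Nat.cast_nonneg a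
  have h1 : (A.card : ℝ) * B.card ≤ D.card + C * a := by
    have h2 : ((A.card * B.card : ℕ) : ℝ) = D.card +
        (((A ×ˢ B).filter (fun q => ¬ G.Adj q.1 q.2)).card : ℝ) := by exact_mod_cast hDc
    have h3 : ((((A ×ˢ B).filter (fun q => ¬ G.Adj q.1 q.2)).card : ℕ) : ℝ) ≤ tot G P := by
      exact_mod_cast hNc
    push_cast at h2
    linarith
  have h2 : (99 / 100 * (a : ℝ)) * (99 / 100 * a) ≤ (A.card : ℝ) * B.card :=
    mul_le_mul hAc hBc (by positivity) (by positivity)
  have h3 : C * a ≤ (a : ℝ) ^ 2 / 3 := by nlinarith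
  have h4 : (D.card : ℝ) ≤ (((clq G (un P) (p + 3)).filter (fun K => R ⊆ K)).card : ℝ) := by
    exact_mod_cast hDle
  nlinarith

theorem ext : EXTStmt := by
  intro p C
  refine ⟨⌈3 * C⌉₊, fun a ha {V} _ G e W P U hS he hCB => ?_⟩
  classical
  have haC : 3 * C ≤ a := (Nat.le_ceil _).trans (by exact_mod_cast ha)
  have hone : ∀ R ∈ clq G (un P) (p + 1), (a : ℝ) ^ 2 / 2 ≤
      (((clq G (un P) (p + 3)).filter (fun K => R ⊆ K)).card : ℝ) := fun R hR =>
    ext_one G p a e C P hS.par he hS.lo hS.mis hS.tot haC hR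
  refine ⟨?_, fun u hu => ?_⟩
  · intro R hR
    convert hone R hR
  set X := un P with hX
  have hXW : X ⊆ W := by
    intro v hv
    obtain ⟨i, hi⟩ := ext_mem_un.1 hv
    exact (hS.cov v).2 (Or.inr ⟨i, hi⟩)
  have huW : u ∈ W := (hS.cov u).2 (Or.inl hu)
  set S := clq G (nb G X u) (p + 1) with hSdef
  set T := clq G X (p + 3) with hT
  -- double counting
  have hdc : ∑ R ∈ S, (T.filter (fun K => R ⊆ K)).card = ∑ K ∈ T, (S.filter (fun R => R ⊆ K)).card := by
    simp only [card_filter]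
    exact sum_comm
  have hlow : (S.card : ℝ) * ((a : ℝ) ^ 2 / 2) ≤ ∑ R ∈ S, ((T.filter (fun K => R ⊆ K)).card : ℝ) := by
    rw [← nsmul_eq_mul, ← sum_const]
    refine sum_le_sum fun R hR => hone R ?_
    rw [hSdef, mem_clq] at hR
    rw [mem_clq]
    exact ⟨hR.1.trans (nb_subset G X u), hR.2⟩
  have hup : ∀ K ∈ T, (S.filter (fun R => R ⊆ K)).card ≤
      (p + 2) * (if (nb G K u).card = p + 2 then 1 else 0) +
        (p + 2) * (if (nb G K u).card = p + 1 then 1 else 0) := by
    intro K hK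
    rw [hT] at hK
    have hK' := (mem_clq G).1 hK
    have h1 : S.filter (fun R => R ⊆ K) ⊆ (nb G K u).powersetCard (p + 1) := by
      intro R hR
      rw [mem_filter, hSdef, mem_clq] at hR
      rw [mem_powersetCard]
      refine ⟨fun v hv => ?_, hR.1.2.1⟩
      rw [mem_nb]
      exact ⟨hR.2 hv, ((mem_nb G).1 (hR.1.1 hv)).2⟩
    have h2 := card_le_card h1
    rw [card_powersetCard] at h2
    have h3 : (nb G K u).card ≤ p + 2 := by
      by_contra hcon
      have h4 : (nb G K u).card ≤ K.card := card_le_card (nb_subset G K u)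
      have h5 : nb G K u = K := eq_of_subset_of_card_le (nb_subset G K u) (by omega)
      have hKW : K ∈ clq G W (p + 2 + 1) := (mem_clq G).2 ⟨hK'.1.trans hXW, hK'.2⟩
      refine not_all (q := p + 2) hCB hKW huW fun s hs => ?_
      rw [← h5, mem_nb] at hs
      exact hs.2.symm
    rcases Nat.lt_or_ge (nb G K u).card (p + 1) with h | h
    · rw [Nat.choose_eq_zero_of_lt h] at h2
      omega
    · rcases Nat.eq_or_lt_of_le h with h | h
      · rw [← h, Nat.choose_self] at h2
        rw [if_pos h.symm]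
        omega
      · have h6 : (nb G K u).card = p + 2 := by omega
        rw [h6, show p + 2 = (p + 1) + 1 from rfl, Nat.choose_succ_self_right] at h2
        rw [if_pos h6]
        omega
  have hsum : ∑ K ∈ T, (S.filter (fun R => R ⊆ K)).card ≤
      (p + 2) * cc G p X (p + 2) u + (p + 2) * cc G p X (p + 1) u := by
    refine (sum_le_sum hup).trans ?_
    rw [sum_add_distrib, ← mul_sum, ← mul_sum]
    unfold cc
    rw [card_filter, card_filter]
  have hfin : (S.card : ℝ) * ((a : ℝ) ^ 2 / 2) ≤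
      ((p + 2) * cc G p X (p + 2) u + (p + 2) * cc G p X (p + 1) u : ℕ) := by
    refine hlow.trans ?_
    have h1 : (∑ R ∈ S, ((T.filter (fun K => R ⊆ K)).card : ℝ)) =
        ((∑ K ∈ T, (S.filter (fun R => R ⊆ K)).card : ℕ) : ℝ) := by
      rw [← hdc]
      push_cast
      rfl
    rw [h1]
    exact_mod_cast hsum
  push_cast at hfin
  rw [kc_eq]
  change (S.card : ℝ) * (a : ℝ) ^ 2 ≤ _
  linarith

end Pool.KQ
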